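import Mathlib
import Pool.Agent.W2helper23.GP.All
import Pool.Agent.Results.MP_4a0cc8_nt.AllFieldsCongruences

/-!
# A gap principle for congruences of elliptic curves, with absolute constants

All constants are absolute: they depend neither on the number field `K`, nor on its degree `n`, nor on
the elliptic curves.  Let `ε > 0`.  There are `n₀` and `δ > 0` such that, over every number field `K`,
for all but at most `(C * B ^ (2 - δ)) ^ n` of the about `B ^ (2 n)` elements `j₀ ∈ K` of absolute
height at most `B` the following is true: if `E₀` is ANY elliptic curve over `K` of invariant `j₀` and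
`E` ANY elliptic curve over `K` with `H(j(E)) ≤ B ^ (3 - ε)`, and `E[m] ≅ E₀[m]` as Galois modules for
some integer `m ≥ n₀`, then `j(E) = j(E₀)`, and `E ≅ E₀` over `K` if `m` has a prime factor `≥ n₀`.

So for almost all curves `E₀`, over all number fields at once, the conjecture (with an absolute `n₀`
for all of them) holds in the range `H(j(E)) ≤ H(j(E₀)) ^ (3 - ε)`: a curve congruent to `E₀` modulo a
large integer is a twist of `E₀` (the curve `E₀` itself, if the integer has a large prime factor) or
has a much larger height.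

Proof.  (1) Local part.  Let `v` be a place not above `6`.  If `v` is a pole of exactly one of `j`,
`j₀`, the order of the pole is large (for a prime factor `p` of `m`: divisible by `p`, also for
`v ∣ p`, if `200 v(p) < p`; for a prime power factor: if `v ∤ m`).  If `v` is a pole of neither, the
inertia groups act on the Tate modules through groups of the same order, also for `v ∣ p`: this is
proved by comparison of the points in the kernels of reduction of both curves (three cases), and gives
`3 ∣ v(j) ↔ 3 ∣ v(j₀)`, `2 ∣ v(j - 1728) ↔ 2 ∣ v(j₀ - 1728)`.  At most `O(n)` places are excepted.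
(2) Let `x₀ = -j₀ / 1728`, `x = -j / 1728`.  For almost all `j₀` the numerators of `x₀`, `x₀ + 1` and
the denominator are squarefree up to a small factor.  By (1) the numerator of
`y = (x + 1) / (x₀ + 1)` is a square up to a small factor, its denominator is composed of poles of `x₀`
and of primes with large exponents, `H(y) ≤ H(x) / H(x₀) ≤ B ^ (2 - ε)`, and the numerator of `x₀`
divides that of `y - 1`.  So, given the denominator of `x₀` (about `B ^ n` possibilities), there are
about `H(y) ^ (n / 2) ≤ B ^ (n (1 - ε / 2))` possibilities for `y`, and `y` determines the numerator of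
`x₀` up to few possibilities.  All counts are by the method of Rankin, uniformly in the field.
(3) If `j(E) = j₀` and `E` is a quadratic twist, then a simple pole of `j₀` yields an automorphism `τ`
with `τ ^ p = 1`, not trivial on `E₀[p]`, which fixes the quadratic field; the congruence and an
automorphism `g` which does not fix it are incompatible with `τ`.
-/

set_option autoImplicit false

open WeierstrassCurve NumberField
open scoped Classical

namespace Pool.Agent.Results.MP_4a0cc8_nt.GapPrinciple

section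
variable {K : Type} [Field K]

/-- The curve `y² = x³ + Ax + B` over `K`. -/
def curve (A B : K) : WeierstrassCurve K := ⟨0, 0, 0, A, B⟩

/-- The group of its points over the algebraic closure of `K`. -/
abbrev Points (A B : K) : Type := ((curve A B).baseChange (AlgebraicClosure K)).toAffine.Point

/-- The action of a `K`-automorphism `σ` of the algebraic closure on the points. -/
noncomputable def galois (A B : K) (σ : AlgebraicClosure K ≃ₐ[K] AlgebraicClosure K) :
    Points A B →+ Points A B :=
  WeierstrassCurve.Affine.Point.map (σ : AlgebraicClosure K →ₐ[K] AlgebraicClosure K)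

/-- The `m`-torsion of `y² = x³ + Ax + B` and that of `y² = x³ + A'x + B'` are isomorphic as Galois
modules: some map between the groups of points restricts to a bijective additive map of the
`m`-torsion which commutes with the Galois group. -/
def Congruent (m : ℕ) (A B A' B' : K) : Prop :=
  ∃ f : Points A B → Points A' B', (∀ P Q, m • P = 0 → m • Q = 0 → f (P + Q) = f P + f Q) ∧
    Set.BijOn f {P | m • P = 0} {Q | m • Q = 0} ∧
    ∀ (σ : AlgebraicClosure K ≃ₐ[K] AlgebraicClosure K) (P : Points A B), m • P = 0 →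
      f (galois A B σ P) = galois A' B' σ (f P)

/-- The invariant of `y² = x³ + Ax + B`. -/
noncomputable def jInvariant (A B : K) : K := 6912 * A ^ 3 / (4 * A ^ 3 + 27 * B ^ 2)

/-- `y² = x³ + Ax + B` and `y² = x³ + A'x + B'` are isomorphic over `K`. -/
def Isomorphic (A B A' B' : K) : Prop := ∃ t : K, t ≠ 0 ∧ A = t ^ 4 * A' ∧ B = t ^ 6 * B'

end

section
variable (K : Type) [Field K] [NumberField K]

/-- the root discriminant `δ_K` -/
noncomputable def rootDisc : ℝ :=
  |(NumberField.discr K : ℝ)| ^ (1 / (Module.finrank ℚ K : ℝ))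

/-- the elements of `K` of absolute height at most `B` -/
def Inv (B : ℝ) : Set K := {j | Height.logHeight₁ j ≤ Module.finrank ℚ K * Real.log B}

variable {K}

/-- `j₀` is rigid: every elliptic curve `E` over `K` with `H(j(E)) ≤ T` which is congruent modulo some
`m ≥ n₀` to an elliptic curve `E₀` over `K` of invariant `j₀` has the invariant `j₀`, and is isomorphic
to `E₀` over `K` if `m` has a prime factor `p ≥ n₀`. -/
def Rigid (n₀ : ℕ) (T : ℝ) (j₀ : K) : Prop :=
  ∀ A B A₀ B₀ : K, 4 * A ^ 3 + 27 * B ^ 2 ≠ 0 → 4 * A₀ ^ 3 + 27 * B₀ ^ 2 ≠ 0 →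
    jInvariant A₀ B₀ = j₀ → jInvariant A B ∈ Inv K T →
    ∀ m : ℕ, n₀ ≤ m → Congruent m A B A₀ B₀ →
      jInvariant A B = j₀ ∧ ((∃ p : ℕ, p.Prime ∧ n₀ ≤ p ∧ p ∣ m) → Isomorphic A B A₀ B₀)

variable (K)

/-- the elements of `K` of absolute height at most `B` which are not rigid -/
def Exceptions (n₀ : ℕ) (T B : ℝ) : Set K := {j₀ ∈ Inv K B | ¬ Rigid n₀ T j₀}

end

open Pool.Agent.Y733.UD Pool.Agent.Y733.LS Pool.Agent.Y733.FZ Pool.Agent.W223.AK
open Pool.Agent.H691R3

theorem rigid_of {K : Type} [Field K] [NumberField K] {n₀ : ℕ} {T : ℝ} {j₀ : K}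
    (h : Pool.Agent.W2helper23.GP.Rig n₀ (Module.finrank ℚ K * Real.log T) j₀) : Rigid n₀ T j₀ := by
  intro A B A₀ B₀ hD hD₀ hj hT m hm hc
  obtain ⟨F, h1, h2, h3⟩ := hc
  obtain ⟨h4, h5⟩ := h A B A₀ B₀ hD hD₀ hj (by
    have h6 : Height.logHeight₁ (jInvariant A B) ≤ Module.finrank ℚ K * Real.log T := hT
    rw [Pool.Agent.W2helper23.GP.logH] at h6
    exact h6) m hm F ⟨h1, h2, h3⟩
  refine ⟨h4, ?_⟩
  rintro ⟨p, hp, hnp, hpm⟩
  exact h5 p hp hnp hpm

/-- logarithmic form -/
theorem exc_log {ε : ℝ} (hε : 0 < ε) (hε1 : ε ≤ 1) : ∃ (n₀ : ℕ) (δ C : ℝ), 0 < δ ∧ 0 ≤ C ∧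
    ∀ (K : Type) [Field K] [NumberField K] (B : ℝ), 1 ≤ B →
      ((Exceptions K n₀ (B ^ (3 - ε)) B).ncard : ℝ) ≤
        Real.exp (Module.finrank ℚ K * (C + (2 - δ) * Real.log B)) := by
  obtain ⟨n₀, δ, C, hδ, hC, h⟩ := Pool.Agent.W2helper23.GP.gap (3 - ε) (by linarith) (by linarith)
  refine ⟨n₀, δ, C, hδ, hC, ?_⟩
  intro K _ _ B hB
  refine (AllFieldsCongruences.ncard_le fun F hF => ?_).2
  refine h K (Real.log B) F (Real.log_nonneg hB) ?_
  intro j₀ hj₀
  obtain ⟨h1, h2⟩ := hF (Finset.mem_coe.2 hj₀)
  refine ⟨?_, fun h3 => h2 (rigid_of ?_)⟩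
  · rw [← Pool.Agent.W2helper23.GP.logH]
    exact h1
  · have e : Real.log (B ^ (3 - ε)) = (3 - ε) * Real.log B :=
      Real.log_rpow (by linarith) _
    rw [e]
    have e2 : (3 - ε) * (Module.finrank ℚ K * Real.log B) =
        Module.finrank ℚ K * ((3 - ε) * Real.log B) := by ring
    rw [← e2]
    exact h3

/-- **Main theorem.**  Let `0 < ε ≤ 1`.  There are `n₀`, `δ > 0` and `C`, such that over every number
field `K`, `n = [K : ℚ]`, and for every `B ≥ 1` at most `(C * B ^ (2 - δ)) ^ n` elements `j₀ ∈ K` of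
height at most `B` are exceptions, and their proportion among all elements of height at most `B` is at
most `(C * B ^ (-δ) * δ_K ^ (2 + ε)) ^ n`.  For all others: if `E₀` and `E` are elliptic curves over `K`
with `j(E₀) = j₀` and `H(j(E)) ≤ B ^ (3 - ε)`, and `E[m] ≅ E₀[m]` for some `m ≥ n₀`, then
`j(E) = j(E₀)`, and `E` is isomorphic to `E₀` over `K` if `m` has a prime factor `p ≥ n₀`. -/
theorem result : ∀ ε : ℝ, 0 < ε → ε ≤ 1 → ∃ (n₀ : ℕ) (δ C : ℝ), 0 < δ ∧ 0 < C ∧
    ∀ (K : Type) [Field K] [NumberField K] (B : ℝ), 1 ≤ B →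
      (Inv K B).Finite ∧
      ((Exceptions K n₀ (B ^ (3 - ε)) B).ncard : ℝ) ≤ (C * B ^ (2 - δ)) ^ Module.finrank ℚ K ∧
      ((Exceptions K n₀ (B ^ (3 - ε)) B).ncard : ℝ) ≤
        (C * B ^ (-δ) * rootDisc K ^ (2 + ε)) ^ Module.finrank ℚ K * ((Inv K B).ncard : ℝ) := by
  intro ε hε hε1
  obtain ⟨n₀, δ, C, hδ, hC, h⟩ := exc_log hε hε1
  set ε₂ : ℝ := min (δ / 2) ε with hε₂
  have hε₂0 : 0 < ε₂ := lt_min (by linarith) hε
  obtain ⟨A, hA, hI⟩ := AllFieldsCongruences.inv_log hε₂0
  set δ' : ℝ := min (δ / 2) 1 with hδ'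
  have hδ'0 : 0 < δ' := lt_min (by linarith) one_pos
  have hl16 : 0 ≤ Real.log 16 := Real.log_nonneg (by norm_num)
  refine ⟨n₀, δ', Real.exp (C + A + Real.log 16), hδ'0, Real.exp_pos _, ?_⟩
  intro K _ _ B hB
  have hB0 : 0 < B := by linarith
  have hlB : 0 ≤ Real.log B := Real.log_nonneg hB
  have hn : (0 : ℝ) < Module.finrank ℚ K := AllFieldsCongruences.n_pos
  have hrd := rd_nonneg K
  have hfin : (Inv K B).Finite := AllFieldsCongruences.fin_Inv B
  have hd : rootDisc K = Real.exp (rd K) := AllFieldsCongruences.rootDisc_eq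
  have hE := h K B hB
  have hle : ((Exceptions K n₀ (B ^ (3 - ε)) B).ncard : ℝ) ≤ ((Inv K B).ncard : ℝ) := by
    have h1 : Exceptions K n₀ (B ^ (3 - ε)) B ⊆ Inv K B := fun x hx => hx.1
    exact_mod_cast Set.ncard_le_ncard h1 hfin
  refine ⟨hfin, ?_, ?_⟩
  · refine hE.trans ?_
    have e : (Real.exp (C + A + Real.log 16) * B ^ (2 - δ')) ^ Module.finrank ℚ K =
        Real.exp (Module.finrank ℚ K * (C + A + Real.log 16 + (2 - δ') * Real.log B)) := by
      rw [Real.rpow_def_of_pos hB0, ← Real.exp_add, ← Real.exp_nat_mul]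
      congr 2
      ring
    rw [e]
    apply Real.exp_le_exp.2
    apply mul_le_mul_of_nonneg_left _ hn.le
    have h1 : (2 - δ) * Real.log B ≤ (2 - δ') * Real.log B := by
      apply mul_le_mul_of_nonneg_right _ hlB
      have := min_le_left (δ / 2) 1
      linarith
    linarith
  · have e : (Real.exp (C + A + Real.log 16) * B ^ (-δ') * rootDisc K ^ (2 + ε)) ^
        Module.finrank ℚ K = Real.exp (Module.finrank ℚ K * (C + A + Real.log 16 +
          -δ' * Real.log B + (2 + ε) * rd K)) := by
      rw [hd, AllFieldsCongruences.pow_form (Real.exp_pos _) hB0 (Real.exp_pos _), Real.log_exp,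
        Real.log_exp]
    rw [e]
    rcases le_or_gt (16 * √(AllFieldsCongruences.rootDisc K)) B with hBK | hBK
    · have h2 : Real.exp (Module.finrank ℚ K * ((2 - ε₂) * Real.log B - (2 + ε₂) * rd K - A)) ≤
          ((Inv K B).ncard : ℝ) := hI K B hBK
      refine hE.trans ?_
      refine le_trans ?_ (mul_le_mul_of_nonneg_left h2 (Real.exp_pos _).le)
      rw [← Real.exp_add, ← mul_add]
      apply Real.exp_le_exp.2
      apply mul_le_mul_of_nonneg_left _ hn.le
      have h3 : (ε₂ + δ') * Real.log B ≤ δ * Real.log B := by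
        apply mul_le_mul_of_nonneg_right _ hlB
        have := min_le_left (δ / 2) 1
        have := min_le_left (δ / 2) ε
        linarith
      have h4 : ε₂ * rd K ≤ ε * rd K :=
        mul_le_mul_of_nonneg_right (min_le_right _ _) hrd
      linarith
    · have h7 : Real.log B < Real.log 16 + rd K / 2 := by
        rw [AllFieldsCongruences.sqrt_rootDisc] at hBK
        have h1 := Real.log_lt_log hB0 hBK
        rwa [Real.log_mul (by norm_num) (Real.exp_pos _).ne', Real.log_exp] at h1
      refine hle.trans ?_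
      refine le_mul_of_one_le_left (Nat.cast_nonneg _) (Real.one_le_exp ?_)
      apply mul_nonneg hn.le
      have h8 : δ' * Real.log B ≤ 1 * Real.log B :=
        mul_le_mul_of_nonneg_right (min_le_right _ _) hlB
      have h10 := mul_nonneg hε.le hrd
      linarith

end Pool.Agent.Results.MP_4a0cc8_nt.GapPrinciple
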