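import Mathlib
import Pool.Agent.W2helper23.GP.Third
import Pool.Agent.Results.MP_4a0cc8_nt.AllFieldsCongruences

/-!
# The exponent one third for the number of curves congruent to a given curve, with absolute constants

All constants are absolute: they depend neither on the number field `K`, nor on its degree `n`, nor on
the elliptic curves.  Let `ε > 0`.  There is `n₀` such that over every number field `K` and for EVERY
`j₀ ∈ K`, `j₀ ≠ 0`, at most `(C * B ^ (1/3 + ε) * H(j₀) ^ ε) ^ n` of the about `B ^ (2 n)` elements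
`j ∈ K` of absolute height at most `B` are invariants of elliptic curves `E` over `K` such that
`E[m] ≅ E₀[m]` for some elliptic curve `E₀` over `K` of invariant `j₀` (any twist) and some integer
`m ≥ n₀`; for `j₀ = 0` the bound is `(C * B ^ (1/2 + ε)) ^ n`.

Proof.  At a place `v` not above `6` (with at most `O(n)` exceptions in each of `O(n)` families) which is
neither a pole nor a zero of `j₀`: if `v` is a pole of `j`, its order is large (the local theorem of the
starting library); if not, both curves have potentially good reduction, the orders of the discriminants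
are congruent modulo `3`, also for `v` above `m` (piece L1 of the library of the gap principle: the case
of two curves with potentially good reduction, which are compared over a ramified extension), so
`3 ∣ v(j)`.  So the denominator of `j` is composed of the poles of `j₀` and primes with large exponents,
and the numerator is a cube up to the zeros of `j₀`.  For `j₀ = 0` the numerator of `j - 1728` is a
square.
-/

set_option autoImplicit false

open WeierstrassCurve NumberField
open scoped Classical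

namespace Pool.Agent.Results.MP_4a0cc8_nt.PartnersOneThird

section
variable {K : Type} [Field K]

/-- The curve `y² = x³ + Ax + B` over `K`. -/
def curve (A B : K) : WeierstrassCurve K := ⟨0, 0, 0, A, B⟩

/-- The group of its points over the algebraic closure of `K`. -/
abbrev Points (A B : K) : Type := ((curve A B).baseChange (AlgebraicClosure K)).toAffine.Point

/-- The action of a `K`-automorphism `σ` of the algebraic closure on the points. -/
noncomputable def galois (A B : K) (σ : AlgebraicClosure K ≃ₐ[K] AlgebraicClosure K) :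
    Points A B →+ Points A B :=
  WeierstrassCurve.Affine.Point.map (σ : AlgebraicClosure K →ₐ[K] AlgebraicClosure K)

/-- The `m`-torsion of `y² = x³ + Ax + B` and that of `y² = x³ + A'x + B'` are isomorphic as Galois
modules: some map between the groups of points restricts to a bijective additive map of the
`m`-torsion which commutes with the Galois group. -/
def Congruent (m : ℕ) (A B A' B' : K) : Prop :=
  ∃ f : Points A B → Points A' B', (∀ P Q, m • P = 0 → m • Q = 0 → f (P + Q) = f P + f Q) ∧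
    Set.BijOn f {P | m • P = 0} {Q | m • Q = 0} ∧
    ∀ (σ : AlgebraicClosure K ≃ₐ[K] AlgebraicClosure K) (P : Points A B), m • P = 0 →
      f (galois A B σ P) = galois A' B' σ (f P)

/-- The invariant of `y² = x³ + Ax + B`. -/
noncomputable def jInvariant (A B : K) : K := 6912 * A ^ 3 / (4 * A ^ 3 + 27 * B ^ 2)

/-- `j₀` and `j` are the invariants of two elliptic curves over `K` which are congruent modulo some
`m ≥ n₀`. -/
def Related (n₀ : ℕ) (j₀ j : K) : Prop :=
  ∃ A B A₀ B₀ : K, 4 * A ^ 3 + 27 * B ^ 2 ≠ 0 ∧ 4 * A₀ ^ 3 + 27 * B₀ ^ 2 ≠ 0 ∧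
    jInvariant A B = j ∧ jInvariant A₀ B₀ = j₀ ∧ ∃ m : ℕ, n₀ ≤ m ∧ Congruent m A B A₀ B₀

end

section
variable (K : Type) [Field K] [NumberField K]

/-- the root discriminant `δ_K` -/
noncomputable def rootDisc : ℝ :=
  |(NumberField.discr K : ℝ)| ^ (1 / (Module.finrank ℚ K : ℝ))

/-- the elements of `K` of absolute height at most `B` -/
def Inv (B : ℝ) : Set K := {j | Height.logHeight₁ j ≤ Module.finrank ℚ K * Real.log B}

variable {K}

/-- the absolute height -/
noncomputable def absHeight (j : K) : ℝ := Real.exp (Height.logHeight₁ j / Module.finrank ℚ K)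

/-- the elements of height at most `B` which are related to `j₀` -/
def Partners (n₀ : ℕ) (j₀ : K) (B : ℝ) : Set K := {j ∈ Inv K B | Related n₀ j₀ j}

end

open Pool.Agent.Y733.UD Pool.Agent.Y733.LS Pool.Agent.Y733.FZ Pool.Agent.W223.AK
open Pool.Agent.H691R3

theorem crel_of {K : Type} [Field K] [NumberField K] {n₀ : ℕ} {j₀ j : K} (h : Related n₀ j₀ j) :
    Pool.Agent.W2helper23.GP.CRel n₀ j₀ j := by
  obtain ⟨A, B, A₀, B₀, hD, hD₀, hj, hj₀, m, hm, F, h1, h2, h3⟩ := h
  exact ⟨A, B, A₀, B₀, hD, hD₀, hj, hj₀, m, hm, F, ⟨h1, h2, h3⟩⟩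

theorem log_abs {K : Type} [Field K] [NumberField K] (j : K) :
    Real.log (absHeight j) = ht j / Module.finrank ℚ K := by
  unfold absHeight
  rw [Real.log_exp, Pool.Agent.W2helper23.GP.logH]

/-- logarithmic form -/
theorem part_log {ε : ℝ} (hε : 0 < ε) (hε1 : ε ≤ 1) : ∃ (n₀ : ℕ) (A : ℝ), 0 ≤ A ∧
    ∀ (K : Type) [Field K] [NumberField K] (B : ℝ), 1 ≤ B →
      (∀ j₀ : K, j₀ ≠ 0 → ((Partners n₀ j₀ B).ncard : ℝ) ≤ Real.exp (Module.finrank ℚ K *
        (A + (1 / 3 + ε) * Real.log B + ε * Real.log (absHeight j₀)))) ∧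
      ((Partners n₀ (0 : K) B).ncard : ℝ) ≤ Real.exp (Module.finrank ℚ K *
        (A + (1 / 2 + ε) * Real.log B)) := by
  obtain ⟨n₀, A, hA, h⟩ := Pool.Agent.W2helper23.GP.third_core ε hε hε1
  refine ⟨n₀, A, hA, ?_⟩
  intro K _ _ B hB
  have hn : (0 : ℝ) < Module.finrank ℚ K := AllFieldsCongruences.n_pos
  have hlB := Real.log_nonneg hB
  have key : ∀ (j₀ : K) (E : Finset K), (E : Set K) ⊆ Partners n₀ j₀ B →
      (j₀ ≠ 0 → (E.card : ℝ) ≤ Real.exp (Module.finrank ℚ K * A + (1 / 3 + ε) *
        (Module.finrank ℚ K * Real.log B) + ε * ht j₀)) ∧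
      (j₀ = 0 → (E.card : ℝ) ≤ Real.exp (Module.finrank ℚ K * A + (1 / 2 + ε) *
        (Module.finrank ℚ K * Real.log B))) := by
    intro j₀ E hE
    refine h K j₀ (Module.finrank ℚ K * Real.log B) E (by positivity) ?_
    intro j hj
    obtain ⟨h1, h2⟩ := hE (Finset.mem_coe.2 hj)
    refine ⟨?_, crel_of h2⟩
    rw [← Pool.Agent.W2helper23.GP.logH]
    exact h1
  constructor
  · intro j₀ hj₀
    refine (AllFieldsCongruences.ncard_le fun E hE => ?_).2
    refine ((key j₀ E hE).1 hj₀).trans (Real.exp_le_exp.2 (le_of_eq ?_))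
    rw [log_abs]
    field_simp
  · refine (AllFieldsCongruences.ncard_le fun E hE => ?_).2
    refine ((key 0 E hE).2 rfl).trans (Real.exp_le_exp.2 (le_of_eq ?_))
    ring

/-- the proportion -/
theorem prop_log {ε : ℝ} (hε : 0 < ε) : ∃ A : ℝ, 0 ≤ A ∧ ∀ (θ A₁ : ℝ), 0 ≤ A₁ → 0 < θ → θ ≤ 2 →
    ∀ (K : Type) [Field K] [NumberField K] (B h : ℝ) (P : Set K), 1 ≤ B → 0 ≤ h → P ⊆ Inv K B →
      ((P.ncard : ℝ) ≤ Real.exp (Module.finrank ℚ K * (A₁ + (θ + ε / 2) * Real.log B + h))) →
      (P.ncard : ℝ) ≤ Real.exp (Module.finrank ℚ K * (A₁ + A + (θ - 2 + ε) * Real.log B +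
        h + (2 + ε) * rd K)) * ((Inv K B).ncard : ℝ) := by
  obtain ⟨A, hA, hI⟩ := AllFieldsCongruences.inv_log (ε := ε / 2) (by positivity)
  have hl16 : 0 ≤ Real.log 16 := Real.log_nonneg (by norm_num)
  refine ⟨A + 2 * Real.log 16, by positivity, ?_⟩
  intro θ A₁ hA₁ hθ hθ2 K _ _ B h P hB hh hP hc
  have hB0 : 0 < B := by linarith
  have hlB : 0 ≤ Real.log B := Real.log_nonneg hB
  have hn : (0 : ℝ) < Module.finrank ℚ K := AllFieldsCongruences.n_pos
  have hrd := rd_nonneg K
  rcases le_or_gt (16 * √(AllFieldsCongruences.rootDisc K)) B with hBK | hBK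
  · have h2 : Real.exp (Module.finrank ℚ K * ((2 - ε / 2) * Real.log B - (2 + ε / 2) * rd K - A)) ≤
        ((Inv K B).ncard : ℝ) := hI K B hBK
    refine hc.trans ?_
    refine le_trans ?_ (mul_le_mul_of_nonneg_left h2 (Real.exp_pos _).le)
    rw [← Real.exp_add, ← mul_add]
    apply Real.exp_le_exp.2
    apply mul_le_mul_of_nonneg_left _ hn.le
    have h4 : ε / 2 * rd K ≤ ε * rd K := mul_le_mul_of_nonneg_right (by linarith) hrd
    linarith
  · have h7 : Real.log B < Real.log 16 + rd K / 2 := by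
      rw [AllFieldsCongruences.sqrt_rootDisc] at hBK
      have h1 := Real.log_lt_log hB0 hBK
      rwa [Real.log_mul (by norm_num) (Real.exp_pos _).ne', Real.log_exp] at h1
    have hle : (P.ncard : ℝ) ≤ ((Inv K B).ncard : ℝ) := by
      exact_mod_cast Set.ncard_le_ncard hP (AllFieldsCongruences.fin_Inv B)
    refine hle.trans ?_
    refine le_mul_of_one_le_left (Nat.cast_nonneg _) (Real.one_le_exp ?_)
    apply mul_nonneg hn.le
    have h8 : (2 - θ) * Real.log B ≤ 2 * Real.log B :=
      mul_le_mul_of_nonneg_right (by linarith) hlB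
    have h9 := mul_nonneg hε.le hlB
    have h10 := mul_nonneg hε.le hrd
    linarith

/-- **Main theorem.**  Let `0 < ε ≤ 1`.  There are `n₀` and `C` such that for every number field `K`,
`n = [K : ℚ]`, and all `B ≥ 1`: for every `j₀ ∈ K`, `j₀ ≠ 0`, the number of the elements of height at
most `B` which are related to `j₀` is at most `(C * B ^ (1/3 + ε) * H(j₀) ^ ε) ^ n`, and their
proportion is at most `(C * B ^ (-5/3 + ε) * H(j₀) ^ ε * δ_K ^ (2 + ε)) ^ n`.  For `j₀ = 0` the
number is at most `(C * B ^ (1/2 + ε)) ^ n`, and the proportion at most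
`(C * B ^ (-3/2 + ε) * δ_K ^ (2 + ε)) ^ n`. -/
theorem result : ∀ ε : ℝ, 0 < ε → ε ≤ 1 → ∃ (n₀ : ℕ) (C : ℝ), 0 < C ∧
    ∀ (K : Type) [Field K] [NumberField K] (B : ℝ), 1 ≤ B → (Inv K B).Finite ∧
      (∀ j₀ : K, j₀ ≠ 0 →
        ((Partners n₀ j₀ B).ncard : ℝ) ≤
          (C * B ^ (1 / 3 + ε) * absHeight j₀ ^ ε) ^ Module.finrank ℚ K ∧
        ((Partners n₀ j₀ B).ncard : ℝ) ≤
          (C * B ^ (-(5 / 3) + ε) * absHeight j₀ ^ ε) ^ Module.finrank ℚ K *
            (rootDisc K ^ (2 + ε)) ^ Module.finrank ℚ K * ((Inv K B).ncard : ℝ)) ∧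
      ((Partners n₀ (0 : K) B).ncard : ℝ) ≤ (C * B ^ (1 / 2 + ε)) ^ Module.finrank ℚ K ∧
      ((Partners n₀ (0 : K) B).ncard : ℝ) ≤
        (C * B ^ (-(3 / 2) + ε)) ^ Module.finrank ℚ K *
          (rootDisc K ^ (2 + ε)) ^ Module.finrank ℚ K * ((Inv K B).ncard : ℝ) := by
  intro ε hε hε1
  obtain ⟨n₀, A₁, hA₁, h⟩ := part_log (ε := ε / 2) (by positivity) (by linarith)
  obtain ⟨A₂, hA₂, h2⟩ := prop_log hε
  refine ⟨n₀, Real.exp (A₁ + A₂), Real.exp_pos _, ?_⟩
  intro K _ _ B hB
  have hB0 : 0 < B := by linarith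
  have hlB : 0 ≤ Real.log B := Real.log_nonneg hB
  have hn : (0 : ℝ) < Module.finrank ℚ K := AllFieldsCongruences.n_pos
  obtain ⟨h3, h4⟩ := h K B hB
  have hd : rootDisc K = Real.exp (rd K) := AllFieldsCongruences.rootDisc_eq
  have eδ : (rootDisc K ^ (2 + ε)) ^ Module.finrank ℚ K =
      Real.exp (Module.finrank ℚ K * ((2 + ε) * rd K)) := by
    rw [hd, Real.exp_nat_mul, ← Real.exp_mul, mul_comm (rd K)]
  have hsub : ∀ j₀ : K, Partners n₀ j₀ B ⊆ Inv K B := fun j₀ x hx => hx.1
  have e1 : ∀ θ : ℝ, (Real.exp (A₁ + A₂) * B ^ θ) ^ Module.finrank ℚ K =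
      Real.exp (Module.finrank ℚ K * (A₁ + A₂ + θ * Real.log B)) := by
    intro θ
    rw [Real.rpow_def_of_pos hB0, ← Real.exp_add, ← Real.exp_nat_mul]
    congr 2
    ring
  refine ⟨AllFieldsCongruences.fin_Inv B, ?_, ?_, ?_⟩
  · intro j₀ hj₀
    have hH : 0 ≤ Real.log (absHeight j₀) := by
      rw [log_abs]
      have := ht_nonneg j₀
      positivity
    have hH0 : 0 < absHeight j₀ := Real.exp_pos _
    have h5 := h3 j₀ hj₀
    have hεH : ε / 2 * Real.log (absHeight j₀) ≤ ε * Real.log (absHeight j₀) :=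
      mul_le_mul_of_nonneg_right (by linarith) hH
    have h6 : ((Partners n₀ j₀ B).ncard : ℝ) ≤ Real.exp (Module.finrank ℚ K *
        (A₁ + (1 / 3 + ε / 2) * Real.log B + ε * Real.log (absHeight j₀))) := by
      refine h5.trans (Real.exp_le_exp.2 (mul_le_mul_of_nonneg_left ?_ hn.le))
      linarith
    constructor
    · rw [AllFieldsCongruences.pow_form (Real.exp_pos _) hB0 hH0, Real.log_exp]
      refine h6.trans (Real.exp_le_exp.2 (mul_le_mul_of_nonneg_left ?_ hn.le))
      have := mul_nonneg hε.le hlB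
      linarith
    · rw [AllFieldsCongruences.pow_form (Real.exp_pos _) hB0 hH0, Real.log_exp, eδ, ← Real.exp_add,
        ← mul_add]
      have h7 := h2 (1 / 3) A₁ hA₁ (by norm_num) (by norm_num) K B (ε * Real.log (absHeight j₀))
        (Partners n₀ j₀ B) hB (by positivity) (hsub j₀) h6
      refine h7.trans (mul_le_mul_of_nonneg_right (Real.exp_le_exp.2 ?_) (Nat.cast_nonneg _))
      apply mul_le_mul_of_nonneg_left _ hn.le
      linarith
  · rw [e1]
    refine h4.trans (Real.exp_le_exp.2 (mul_le_mul_of_nonneg_left ?_ hn.le))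
    have := mul_nonneg hε.le hlB
    linarith
  · rw [e1, eδ, ← Real.exp_add, ← mul_add]
    have h7 := h2 (1 / 2) A₁ hA₁ (by norm_num) (by norm_num) K B 0
      (Partners n₀ (0 : K) B) hB le_rfl (hsub 0) (by rw [add_zero]; exact h4)
    refine h7.trans (mul_le_mul_of_nonneg_right (Real.exp_le_exp.2 ?_) (Nat.cast_nonneg _))
    apply mul_le_mul_of_nonneg_left _ hn.le
    linarith

end Pool.Agent.Results.MP_4a0cc8_nt.PartnersOneThird
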